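import Pool.Agent.Helper81.MS.Check

/-!
# The Makowski-Schinzel inequality for integers with a gap in their prime factorisation
-/

set_option autoImplicit false

namespace Pool.Agent.Results.MP_647ad3_nt.PrimeGap

open ArithmeticFunction (sigma)

theorem result (y : ℕ) : ∃ Y : ℕ, ∀ k m : ℕ, 0 < k → 0 < m →
    (∀ p : ℕ, p.Prime → p ∣ k → p ≤ y) → (∀ p : ℕ, p.Prime → p ∣ m → Y < p) →
    (y < 47 ∨ (∏ p ∈ k.primeFactors, p) ≤
      2 * sigma 1 (∏ p ∈ k.primeFactors, p).totient) →
    k * m ≤ 2 * sigma 1 (k * m).totient := by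
  obtain ⟨Y, hY⟩ := Pool.Agent.Helper81.MS.gap y
  refine ⟨Y, ?_⟩
  intro k m hk hm hks hmr h
  refine hY k m hk hm hks hmr ?_
  rcases h with h | h
  · apply Pool.Agent.Helper81.MS.check_squarefree _ (Pool.Agent.Helper81.MS.squarefree_rad k)
    intro p hp hpk
    have h1 := hks p hp (hpk.trans (Pool.Agent.Helper81.MS.rad_dvd k))
    omega
  · exact h

end Pool.Agent.Results.MP_647ad3_nt.PrimeGap
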