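import Pool.Agent.Helper81.MS.Growth
import Pool.Agent.Helper81.MS.Sharp

/-!
# The exact lower limit of `σ(φ(km)) / m` over rough `m`

For every `k`, the lower limit of `σ(φ(km)) / m`, as the least prime factor of `m` tends to
infinity, is `σ(2φ(k)) / 2`.
-/

set_option autoImplicit false

namespace Pool.Agent.Results.MP_647ad3_nt.RoughMultiples

open ArithmeticFunction (sigma)

theorem result : ∃ C : ℝ, 0 < C ∧ ∀ k : ℕ, 0 < k →
    -- lower bound, uniform in `k`
    (∀ ε : ℝ, 0 < ε → ε ≤ 1 → ∀ m : ℕ, 1 < m → k.Coprime m →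
      (∀ p : ℕ, p.Prime → p ∣ m →
        Real.exp (C * ((sigma 1 (2 * k.totient) : ℝ) / ((2 * k.totient : ℕ) : ℝ)) / ε) < (p : ℝ)) →
      (1 - ε) * ((sigma 1 (2 * k.totient) : ℝ) / 2) * m ≤ (sigma 1 (k * m).totient : ℝ)) ∧
    -- the constant is optimal, already for primes
    (∀ δ : ℝ, 0 < δ → ∀ Y : ℝ, ∃ p : ℕ, p.Prime ∧ Y < (p : ℝ) ∧ k.Coprime p ∧
      (sigma 1 (k * p).totient : ℝ) ≤ (1 + δ) * ((sigma 1 (2 * k.totient) : ℝ) / 2) * p) ∧
    -- rough factors increase the ratio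
    (∀ m : ℕ, 1 < m → k.Coprime m →
      (∀ p : ℕ, p.Prime → p ∣ m → Real.exp (C * (k : ℝ) ^ 2) < (p : ℝ)) →
      (sigma 1 k.totient : ℝ) / k < (sigma 1 (k * m).totient : ℝ) / ((k * m : ℕ) : ℝ)) := by
  obtain ⟨C1, hC1, hlow⟩ := Pool.Agent.Helper81.MS.lower
  obtain ⟨C2, hC2, hgr⟩ := Pool.Agent.Helper81.MS.growth
  refine ⟨max C1 C2, lt_of_lt_of_le (by linarith) (le_max_left C1 C2), ?_⟩
  intro k hk
  have hφ : 0 < k.totient := Nat.totient_pos.mpr hk
  refine ⟨?_, ?_, ?_⟩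
  · intro ε hε hε1 m hm hkm hp
    have h1 := hlow ε hε hε1 k m hk hm hkm (by
      intro p hpp hpm
      refine lt_of_le_of_lt ?_ (hp p hpp hpm)
      apply Real.exp_le_exp.mpr
      apply div_le_div_of_nonneg_right _ hε.le
      have h2 := Pool.Agent.Helper81.MS.one_le_hh (show 2 * k.totient ≠ 0 by omega)
      exact mul_le_mul_of_nonneg_right (le_max_left C1 C2) (le_trans zero_le_one h2))
    refine le_trans (le_of_eq ?_) h1
    ring
  · intro δ hδ Y
    obtain ⟨p, h1, h2, h3, h4⟩ := Pool.Agent.Helper81.MS.sharp k hk δ hδ Y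
    refine ⟨p, h1, h2, h3, h4.trans (le_of_eq ?_)⟩
    ring
  · intro m hm hkm hp
    have h1 := hgr k m hk hm hkm (by
      intro p hpp hpm
      refine lt_of_le_of_lt ?_ (hp p hpp hpm)
      apply Real.exp_le_exp.mpr
      exact mul_le_mul_of_nonneg_right (le_max_right C1 C2) (by positivity))
    have hk0 : (0 : ℝ) < k := by exact_mod_cast hk
    have hm0 : (0 : ℝ) < m := by
      have : 0 < m := by omega
      exact_mod_cast this
    have h2 : (m : ℝ) * sigma 1 k.totient < (sigma 1 (k * m).totient : ℝ) := by exact_mod_cast h1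
    push_cast
    rw [div_lt_div_iff₀ hk0 (by positivity)]
    have h3 := mul_lt_mul_of_pos_left h2 hk0
    linarith

end Pool.Agent.Results.MP_647ad3_nt.RoughMultiples
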